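import Pool.Agent.MP_ed9623_an.H77.SpecW

/-! Anisotropic embeddings on a box. -/

open MeasureTheory Filter Topology Set
open scoped ContDiff

namespace Pool.Agent.MP_ed9623_an.H77

open H64

namespace Mix

noncomputable def K (a b : ℝ) : ℝ := 2 * (|b - a|⁻¹ + |b - a|)

theorem K_nonneg (a b : ℝ) : 0 ≤ K a b := by unfold K; positivity

theorem K_bd {a b x u v : ℝ} (hab : a < b) (hu : 0 ≤ u) (hv : 0 ≤ v)
    (h : x ≤ 2 * (u / (b - a) + (b - a) * v)) : x ≤ K a b * (u + v) := by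
  have hl : 0 < b - a := sub_pos.2 hab
  unfold K
  rw [abs_of_pos hl]
  have h1 : 0 ≤ (b - a)⁻¹ := inv_nonneg.2 hl.le
  rw [div_eq_mul_inv] at h
  nlinarith [mul_nonneg h1 hv, mul_nonneg hl.le hu]

theorem ptY (H : SliceS) {a b c d : ℝ} {f g : P → ℝ} (hf : M2 f) (hg : M2 g)
    (h : WD (Bx a b c d) (ee 0) f g) :
    ∀ᵐ p : P, p ∈ Bx a b c d → f p ^ 2 ≤ K a b * (slY a b f p.2 + slY a b g p.2) := by
  filter_upwards [(H a b c d f g hf hg).1 h] with p hp hm
  have hab : a < b := (mem_Bx.1 hm).1.1.trans (mem_Bx.1 hm).1.2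
  exact K_bd hab (slY_nonneg _ _ _ _) (slY_nonneg _ _ _ _) (hp hm _ (sub_pos.2 hab) le_rfl)

theorem ptS (H : SliceS) {a b c d : ℝ} {f g : P → ℝ} (hf : M2 f) (hg : M2 g)
    (h : WD (Bx a b c d) (ee 1) f g) :
    ∀ᵐ p : P, p ∈ Bx a b c d → f p ^ 2 ≤ K c d * (slS c d f p.1 + slS c d g p.1) := by
  filter_upwards [(H a b c d f g hf hg).2 h] with p hp hm
  have hcd : c < d := (mem_Bx.1 hm).2.1.trans (mem_Bx.1 hm).2.2
  exact K_bd hcd (slS_nonneg _ _ _ _) (slS_nonneg _ _ _ _) (hp hm _ (sub_pos.2 hcd) le_rfl)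

theorem one (H : SliceS) {a b c d : ℝ} {f g : P → ℝ} (hf : M2 f) (hg : M2 g)
    (h : WD (Bx a b c d) (ee 0) f g) :
    ∀ᵐ y, y ∈ Ioo a b → slS c d f y ≤ K a b * (nm f ^ 2 + nm g ^ 2) := by
  have h1 := Measure.ae_ae_of_ae_prod (μ := (volume : Measure ℝ)) (ν := (volume : Measure ℝ))
    (ptY H hf hg h)
  filter_upwards [h1] with y hy hm
  have i1 := (hf.int_slY a b).integrableOn (s := Ioo c d)
  have i2 := (hg.int_slY a b).integrableOn (s := Ioo c d)
  calc slS c d f y ≤ ∫ s in Ioo c d, K a b * (slY a b f s + slY a b g s) := by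
        refine integral_mono_of_nonneg (Eventually.of_forall fun _ => sq_nonneg _)
          ((i1.add i2).const_mul _) ?_
        refine (ae_restrict_iff' measurableSet_Ioo).2 ?_
        filter_upwards [hy] with s hs hs'
        exact hs ⟨hm, hs'⟩
    _ = K a b * ((∫ p in Bx a b c d, f p ^ 2) + ∫ p in Bx a b c d, g p ^ 2) := by
        rw [integral_const_mul, integral_add i1 i2, hf.slY_int, hg.slY_int]
    _ ≤ _ := mul_le_mul_of_nonneg_left (add_le_add (hf.set_le _) (hg.set_le _)) (K_nonneg _ _)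

theorem wt {a b c d B : ℝ} {f : P → ℝ} {h : ℝ → ℝ} (hf : M2 f) (hh : IntegrableOn h (Ioo a b))
    (h0 : ∀ y, 0 ≤ h y) (hB : ∀ᵐ y, y ∈ Ioo a b → slS c d f y ≤ B) :
    IntegrableOn (fun p : P => h p.1 * f p ^ 2) (Bx a b c d) ∧
      ∫ p in Bx a b c d, h p.1 * f p ^ 2 ≤ B * ∫ y in Ioo a b, h y := by
  have e : (volume : Measure P).restrict (Bx a b c d)
      = (volume.restrict (Ioo a b)).prod (volume.restrict (Ioo c d)) := by
    rw [Measure.prod_restrict]; rfl
  have h2 : Integrable (fun p => f p ^ 2)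
      ((volume.restrict (Ioo a b)).prod (volume.restrict (Ioo c d))) := by
    rw [← e]; exact hf.int_sq.integrableOn
  have hm : AEStronglyMeasurable (fun p : P => h p.1 * f p ^ 2)
      ((volume.restrict (Ioo a b)).prod (volume.restrict (Ioo c d))) :=
    hh.aestronglyMeasurable.comp_fst.mul h2.aestronglyMeasurable
  have hB' : ∀ᵐ y ∂(volume.restrict (Ioo a b)), h y * slS c d f y ≤ B * h y := by
    refine (ae_restrict_iff' measurableSet_Ioo).2 ?_
    filter_upwards [hB] with y hy hy'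
    rw [mul_comm B]
    exact mul_le_mul_of_nonneg_left (hy hy') (h0 y)
  have e2 : ∀ y, ∫ s in Ioo c d, h y * f (y, s) ^ 2 = h y * slS c d f y := fun y =>
    integral_const_mul _ _
  have hI : Integrable (fun p : P => h p.1 * f p ^ 2)
      ((volume.restrict (Ioo a b)).prod (volume.restrict (Ioo c d))) := by
    refine (integrable_prod_iff hm).2 ⟨?_, ?_⟩
    · filter_upwards [h2.prod_right_ae] with y hy
      exact hy.const_mul _
    · refine Integrable.mono' (hh.const_mul B) hm.norm.integral_prod_right' ?_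
      filter_upwards [hB'] with y hy
      have e3 : ∫ s in Ioo c d, ‖h y * f (y, s) ^ 2‖ = h y * slS c d f y := by
        rw [← e2]
        refine integral_congr_ae (Eventually.of_forall fun s => ?_)
        exact Real.norm_of_nonneg (mul_nonneg (h0 y) (sq_nonneg _))
      show ‖∫ s in Ioo c d, ‖h y * f (y, s) ^ 2‖‖ ≤ B * h y
      rw [e3, Real.norm_of_nonneg (mul_nonneg (h0 y) (slS_nonneg _ _ _ _))]
      exact hy
  refine ⟨by unfold IntegrableOn; rw [e]; exact hI, ?_⟩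
  rw [e, integral_prod _ hI, ← integral_const_mul]
  simp only [e2]
  exact integral_mono_of_nonneg
    (Eventually.of_forall fun y => mul_nonneg (h0 y) (slS_nonneg _ _ _ _)) (hh.const_mul B) hB'

theorem two (H : SliceS) {a b c d : ℝ} {f fY φ φS : P → ℝ} (hf : M2 f) (hfY : M2 fY) (hφ : M2 φ)
    (hφS : M2 φS) (h1 : WD (Bx a b c d) (ee 0) f fY) (h2 : WD (Bx a b c d) (ee 1) φ φS) :
    M2 ((Bx a b c d).indicator fun p => φ p * f p) ∧
      nm ((Bx a b c d).indicator fun p => φ p * f p) ^ 2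
        ≤ K a b * (nm f ^ 2 + nm fY ^ 2) * (K c d * (nm φ ^ 2 + nm φS ^ 2)) := by
  have hO : MeasurableSet (Bx a b c d) := (isOpen_Bx a b c d).measurableSet
  have i1 := (hφ.int_slS c d).integrableOn (s := Ioo a b)
  have i2 := (hφS.int_slS c d).integrableOn (s := Ioo a b)
  obtain ⟨wI, wB⟩ := wt (h := fun y => K c d * (slS c d φ y + slS c d φS y)) hf
    ((i1.add i2).const_mul _)
    (fun y => mul_nonneg (K_nonneg _ _) (add_nonneg (slS_nonneg _ _ _ _) (slS_nonneg _ _ _ _)))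
    (one H hf hfY h1)
  have hle : ∀ᵐ p ∂(volume.restrict (Bx a b c d)),
      (φ p * f p) ^ 2 ≤ K c d * (slS c d φ p.1 + slS c d φS p.1) * f p ^ 2 := by
    refine (ae_restrict_iff' hO).2 ?_
    filter_upwards [ptS H hφ hφS h2] with p hp hm
    rw [mul_pow]
    exact mul_le_mul_of_nonneg_right (hp hm) (sq_nonneg _)
  have e : (fun p => ((Bx a b c d).indicator (fun p => φ p * f p) p) ^ 2)
      = (Bx a b c d).indicator fun p => (φ p * f p) ^ 2 := by
    funext p
    by_cases hp : p ∈ Bx a b c d <;> simp [hp]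
  have hm : AEStronglyMeasurable (fun p => φ p * f p) volume := hφ.meas.mul hf.meas
  refine ⟨M2.of_int (hm.indicator hO) ?_, ?_⟩
  · rw [e, integrable_indicator_iff hO]
    refine Integrable.mono' wI (hm.pow 2).restrict ?_
    filter_upwards [hle] with p hp
    rw [Real.norm_of_nonneg (sq_nonneg _)]
    exact hp
  · rw [nm_sq, e, integral_indicator hO]
    refine (integral_mono_of_nonneg (Eventually.of_forall fun _ => sq_nonneg _) wI hle).trans
      (wB.trans ?_)
    refine mul_le_mul_of_nonneg_left ?_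
      (mul_nonneg (K_nonneg _ _) (add_nonneg (sq_nonneg _) (sq_nonneg _)))
    rw [integral_const_mul, integral_add i1 i2, hφ.slS_int, hφS.slS_int]
    exact mul_le_mul_of_nonneg_left (add_le_add (hφ.set_le _) (hφS.set_le _)) (K_nonneg _ _)

theorem three (H : SliceS) {a b c d : ℝ} {f fY fS fYS : P → ℝ} (hf : M2 f) (hfY : M2 fY)
    (hfS : M2 fS) (hfYS : M2 fYS) (h1 : WD (Bx a b c d) (ee 0) f fY)
    (h2 : WD (Bx a b c d) (ee 1) f fS) (h3 : WD (Bx a b c d) (ee 0) fS fYS) :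
    ∀ᵐ p, p ∈ Bx a b c d → f p ^ 2
      ≤ K c d * (K a b * (nm f ^ 2 + nm fY ^ 2) + K a b * (nm fS ^ 2 + nm fYS ^ 2)) := by
  have q := (Measure.quasiMeasurePreserving_fst (μ := (volume : Measure ℝ))
    (ν := (volume : Measure ℝ))).ae ((one H hf hfY h1).and (one H hfS hfYS h3))
  filter_upwards [ptS H hf hfS h2, q] with p hp hq hm
  exact (hp hm).trans (mul_le_mul_of_nonneg_left (add_le_add (hq.1 hm.1) (hq.2 hm.1))
    (K_nonneg _ _))

end Mix

open Mix in
theorem rowMix : OfMix := by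
  intro H a b c d
  have hA := K_nonneg a b
  have hC := K_nonneg c d
  have hAC : K a b * K c d ≤ (K a b + K c d) ^ 2 := by nlinarith [mul_nonneg hA hC]
  refine ⟨K a b + K c d, add_nonneg hA hC, ?_, ?_, ?_⟩
  · intro f fY hf hfY h
    filter_upwards [one H hf hfY h] with y hy hm
    exact (hy hm).trans (mul_le_mul_of_nonneg_right (le_add_of_nonneg_right hC)
      (add_nonneg (sq_nonneg _) (sq_nonneg _)))
  · intro f fY φ φS hf hfY hφ hφS h1 h2
    obtain ⟨m, hb⟩ := two H hf hfY hφ hφS h1 h2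
    refine ⟨m, ?_⟩
    have n1 := nm_nonneg f
    have n2 := nm_nonneg fY
    have n3 := nm_nonneg φ
    have n4 := nm_nonneg φS
    refine (pow_le_pow_iff_left₀ (nm_nonneg _) (by positivity) two_ne_zero).1 (hb.trans ?_)
    have s1 : nm f ^ 2 + nm fY ^ 2 ≤ (nm f + nm fY) ^ 2 := by nlinarith [mul_nonneg n1 n2]
    have s2 : nm φ ^ 2 + nm φS ^ 2 ≤ (nm φ + nm φS) ^ 2 := by nlinarith [mul_nonneg n3 n4]
    calc _ = (K a b * K c d) * ((nm f ^ 2 + nm fY ^ 2) * (nm φ ^ 2 + nm φS ^ 2)) := by ring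
      _ ≤ (K a b + K c d) ^ 2 * ((nm f + nm fY) ^ 2 * (nm φ + nm φS) ^ 2) := by gcongr
      _ = _ := by ring
  · intro f fY fS fYS hf hfY hfS hfYS h1 h2 h3
    filter_upwards [three H hf hfY hfS hfYS h1 h2 h3] with p hp hm
    have n1 := nm_nonneg f
    have n2 := nm_nonneg fY
    have n3 := nm_nonneg fS
    have n4 := nm_nonneg fYS
    refine abs_le_of_sq_le_sq' ((hp hm).trans ?_) (by positivity) |> abs_le.2
    have s1 : nm f ^ 2 + nm fY ^ 2 + nm fS ^ 2 + nm fYS ^ 2
        ≤ (nm f + nm fY + nm fS + nm fYS) ^ 2 := by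
      nlinarith [mul_nonneg n1 n2, mul_nonneg n1 n3, mul_nonneg n1 n4, mul_nonneg n2 n3,
        mul_nonneg n2 n4, mul_nonneg n3 n4]
    calc _ = (K a b * K c d) * (nm f ^ 2 + nm fY ^ 2 + nm fS ^ 2 + nm fYS ^ 2) := by ring
      _ ≤ (K a b + K c d) ^ 2 * (nm f + nm fY + nm fS + nm fYS) ^ 2 := by gcongr
      _ = _ := by ring

end Pool.Agent.MP_ed9623_an.H77
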