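import Pool.Agent.MP_ed9623_an.H77.SpecX

/-! Unique continuation in time. -/

open MeasureTheory Filter Topology Set
open scoped ContDiff InnerProductSpace

namespace Pool.Agent.MP_ed9623_an.H77

open H64

namespace Tan

variable {H V : Type} [NormedAddCommGroup H] [InnerProductSpace ℝ H] [CompleteSpace H]
  [NormedAddCommGroup V] [InnerProductSpace ℝ V] [CompleteSpace V] {S : St H V} {R : ℝ}

omit [CompleteSpace H] [CompleteSpace V] in
theorem bn_mono {U : ℝ → V} {k : ℕ} {e e' : ℝ} (h : Bn S U k e) (h0 : 0 ≤ e) (h1 : e ≤ e') :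
    Bn S U k e' :=
  ⟨fun t ht => (h.1 t ht).trans h1, h.2.trans (pow_le_pow_left₀ h0 h1 2)⟩

theorem bn_zero {U : ℝ → V} (h : Bd S R univ U) {e : ℝ} (h1 : R ≤ e) (h2 : ‖S.ι‖ * R ≤ e) :
    Bn S U 0 e := by
  have hb : ∀ t, ‖U t‖ ≤ R := fun t => (h.2 t trivial).1
  constructor
  · intro t _
    rw [pow_zero, one_mul, iteratedDeriv_zero]
    exact (S.ι.le_opNorm _).trans ((mul_le_mul_of_nonneg_left (hb t) (norm_nonneg _)).trans h2)
  · simp only [pow_zero, one_mul, iteratedDeriv_zero]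
    have := intervalIntegral.norm_integral_le_of_norm_le_const (a := 0) (b := 1) (C := e ^ 2)
      (f := fun t => ‖U t‖ ^ 2) fun t _ => by
        rw [Real.norm_of_nonneg (sq_nonneg _)]
        exact pow_le_pow_left₀ (norm_nonneg _) ((hb t).trans h1) 2
    rw [sub_zero, abs_one, mul_one] at this
    exact (le_abs_self _).trans this

theorem bound (h1 : EnNS) (h2 : MajS) (S : St H V) (R : ℝ) : ∃ C M : ℝ, ∀ U, Bd S R univ U →
    ∀ n t, ‖S.ι (iteratedDeriv n U t)‖ ≤ C * M ^ n * (n.factorial : ℝ) := by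
  obtain ⟨K, hK, hE⟩ := h1 S R
  obtain ⟨M, b, b0, b1, b2⟩ := h2 K (max 1 (max R (‖S.ι‖ * R))) hK (le_max_left _ _)
  have key : ∀ U, Bd S R univ U → ∀ n, ∀ k ≤ n, Bn S U k (b k) := by
    intro U hU n
    induction n with
    | zero =>
      intro k hk
      rw [Nat.le_zero.1 hk, b0]
      exact bn_zero hU (le_max_of_le_right (le_max_left _ _))
        (le_max_of_le_right (le_max_right _ _))
    | succ n ih =>
      intro k hk
      rcases Nat.le_succ_iff.1 hk with a | rfl
      · exact ih k a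
      · have := hE U b n hU (b0 ▸ le_max_left _ _) (fun k => (b1 k).1) ih
        refine bn_mono this ?_ (b2 n)
        exact le_trans (by positivity) (this.1 0 ⟨le_rfl, zero_le_one⟩)
  refine ⟨_, M, fun U hU n t => le_trans ?_ (b1 n).2⟩
  have := (key _ (hU.shift_univ (t - 1)) n n le_rfl).1 1 ⟨zero_le_one, le_rfl⟩
  rw [one_pow, one_mul, iteratedDeriv_comp_add_const] at this
  simpa using this

end Tan

open Tan in
theorem rowTan : OfTan := by
  intro h1 h2 h3 H V _ _ _ _ _ _ S R U W Z hZ hU hW I hI hne h t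
  obtain ⟨C, M, hb⟩ := bound h1 h2 S R
  have : CompleteSpace Z := hZ.completeSpace_coe
  have sU : ContDiff ℝ ∞ U := contDiffOn_univ.1 hU.1.1
  have sW : ContDiff ℝ ∞ W := contDiffOn_univ.1 hW.1.1
  let T : V →L[ℝ] H := Zᗮ.starProjection.comp S.ι
  have hT : ∀ v, T v = 0 ↔ S.ι v ∈ Z := fun v => by
    show Zᗮ.starProjection (S.ι v) = 0 ↔ _
    rw [Submodule.starProjection_apply_eq_zero_iff, Submodule.orthogonal_orthogonal]
  refine (hT _).1 (h3 (fun t => T (U t + W t)) (2 * C) M (T.contDiff.comp (sU.add sW))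
    (fun n s => ?_) I hI hne (fun s hs => (hT _).2 (h s hs)) t)
  rw [iter_clm T (sU.add sW) n]
  have e : iteratedDeriv n (fun t => U t + W t) s = iteratedDeriv n U s + iteratedDeriv n W s :=
    iteratedDeriv_add (sU.of_le (by exact_mod_cast le_top)).contDiffAt
      (sW.of_le (by exact_mod_cast le_top)).contDiffAt
  show ‖Zᗮ.starProjection (S.ι (iteratedDeriv n (fun t => U t + W t) s))‖ ≤ _
  refine (Zᗮ.norm_starProjection_apply_le _).trans ?_
  rw [e, map_add]
  have a1 := hb U hU n s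
  have a2 := hb W hW n s
  have := norm_add_le (S.ι (iteratedDeriv n U s)) (S.ι (iteratedDeriv n W s))
  linarith

end Pool.Agent.MP_ed9623_an.H77
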